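import Pool.Agent.Y613.LB.Lin
import Pool.Agent.H267R3.PR.Lower

/-!
# Programs of size `m log m` for colourings with doubly exponential Ramsey numbers
-/

set_option autoImplicit false

namespace Pool.Agent.Y613.LB

open Finset Pool.Agent.H267R3.PR

theorem digit_eq {m t x : ℕ} : digit 2 m t x = (x.testBit (m - 1 - t)).toNat := by
  unfold digit
  rw [Nat.testBit_eq_decide_div_mod_eq]
  rcases Nat.mod_two_eq_zero_or_one (x / 2 ^ (m - 1 - t)) with h | h <;> simp [h]

/-- the program which simulates a machine that reads columns of digits -/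
def colBP {κ Q : Type} [Fintype Q] {r m : ℕ} (hr : 0 < r) (hm : 0 < m)
    (step : ℕ → Q → (Fin r → ℕ) → Q) (start : Q) (out : Q → κ) : BP (Fin r × Fin m) κ where
  Node := (Fin m × Q × Fin r × (Fin r → Bool)) ⊕ Q
  fin := inferInstance
  start := .inl (⟨0, hm⟩, start, ⟨0, hr⟩, fun _ => false)
  label v := match v with
    | .inl s => .inr (s.2.2.1, ⟨m - 1 - s.1, by have := s.1.2; omega⟩)
    | .inr q => .inl (out q)
  next v b := match v with
    | .inl s =>
      if h : (s.2.2.1 : ℕ) + 1 < r then
        .inl (s.1, s.2.1, ⟨s.2.2.1 + 1, h⟩, Function.update s.2.2.2 s.2.2.1 b)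
      else
        if h' : (s.1 : ℕ) + 1 < m then
          .inl (⟨s.1 + 1, h'⟩, step s.1 s.2.1
            (fun i => (Function.update s.2.2.2 s.2.2.1 b i).toNat), ⟨0, hr⟩, fun _ => false)
        else .inr (step s.1 s.2.1 (fun i => (Function.update s.2.2.2 s.2.2.1 b i).toNat))
    | .inr q => .inr q
  time v := match v with
    | .inl s => (s.1 : ℕ) * r + s.2.2.1
    | .inr _ => m * r
  acyclic := by
    intro v x b hv
    match v with
    | .inr q => cases hv
    | .inl s =>
      have h1 := s.1.2
      have h2 := s.2.2.1.2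
      have h3 : ((s.1 : ℕ) + 1) * r = (s.1 : ℕ) * r + r := by ring
      dsimp only
      split_ifs with h h'
      · dsimp only
        omega
      · dsimp only
        omega
      · dsimp only
        have h5 : ((s.1 : ℕ) + 1) * r ≤ m * r := Nat.mul_le_mul_right r h1
        omega

theorem colBP_size {κ Q : Type} [Fintype Q] {r m : ℕ} (hr : 0 < r) (hm : 0 < m)
    (step : ℕ → Q → (Fin r → ℕ) → Q) (start : Q) (out : Q → κ) :
    (colBP hr hm step start out).size = m * (Fintype.card Q * (r * 2 ^ r)) + Fintype.card Q := by
  unfold BP.size colBP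
  simp

theorem colBP_run {κ Q : Type} [Fintype Q] {r m : ℕ} (hr : 0 < r) (hm : 0 < m)
    (step : ℕ → Q → (Fin r → ℕ) → Q) (start : Q) (out : Q → κ) (v : Fin r → ℕ) :
    (colBP hr hm step start out).Run (fun x => (v x.1).testBit x.2)
      (colBP hr hm step start out).start (out (run 2 m step start v m)) := by
  classical
  have key : ∀ n, ∀ (t : Fin m) (i : Fin r) (β : Fin r → Bool),
      m * r - ((t : ℕ) * r + i) ≤ n → (∀ j : Fin r, j < i → β j = (v j).testBit (m - 1 - t)) →
      (colBP hr hm step start out).Run (fun x => (v x.1).testBit x.2)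
        (.inl (t, run 2 m step start v t, i, β)) (out (run 2 m step start v m)) := by
    intro n
    induction n with
    | zero =>
      intro t i β h
      exfalso
      have h1 := t.2
      have h2 := i.2
      have h3 : ((t : ℕ) + 1) * r ≤ m * r := Nat.mul_le_mul_right r h1
      have h4 : ((t : ℕ) + 1) * r = (t : ℕ) * r + r := by ring
      omega
    | succ n ih =>
      intro t i β h hβ
      have h1 := t.2
      have h2 := i.2
      have h3 : ((t : ℕ) + 1) * r ≤ m * r := Nat.mul_le_mul_right r h1
      have h4 : ((t : ℕ) + 1) * r = (t : ℕ) * r + r := by ring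
      refine BP.Run.step _ (i, ⟨m - 1 - t, by omega⟩) _ rfl ?_
      have hup : ∀ j : Fin r, (j : ℕ) ≤ i → Function.update β i ((v i).testBit (m - 1 - t)) j =
          (v j).testBit (m - 1 - t) := by
        intro j hj
        by_cases hji : j = i
        · subst hji
          rw [Function.update_self]
        · rw [Function.update_of_ne hji]
          refine hβ j ?_
          rw [Fin.lt_def]
          have : (j : ℕ) ≠ i := fun h => hji (Fin.ext h)
          omega
      by_cases hi : (i : ℕ) + 1 < r
      · have e : (colBP hr hm step start out).next (.inl (t, run 2 m step start v t, i, β))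
            ((v i).testBit (m - 1 - t)) = .inl (t, run 2 m step start v t, ⟨i + 1, hi⟩,
              Function.update β i ((v i).testBit (m - 1 - t))) := by
          exact dif_pos hi
        show (colBP hr hm step start out).Run _ ((colBP hr hm step start out).next _
          ((v i).testBit (m - 1 - t))) _
        rw [e]
        refine ih t ⟨i + 1, hi⟩ _ ?_ ?_
        · show m * r - ((t : ℕ) * r + ((i : ℕ) + 1)) ≤ n
          omega
        · intro j hj
          exact hup j (by rw [Fin.lt_def] at hj; simp only at hj; omega)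
      · have hcol : (fun j => (Function.update β i ((v i).testBit (m - 1 - t)) j).toNat) =
            fun j => digit 2 m t (v j) := by
          funext j
          rw [hup j (by have := j.2; omega), digit_eq]
        have hrun : step t (run 2 m step start v t)
            (fun j => (Function.update β i ((v i).testBit (m - 1 - t)) j).toNat) =
            run 2 m step start v ((t : ℕ) + 1) := by
          rw [hcol]
          rfl
        by_cases ht : (t : ℕ) + 1 < m
        · have e : (colBP hr hm step start out).next (.inl (t, run 2 m step start v t, i, β))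
              ((v i).testBit (m - 1 - t)) = .inl (⟨t + 1, ht⟩,
                run 2 m step start v ((t : ℕ) + 1), ⟨0, hr⟩, fun _ => false) := by
            refine (dif_neg hi).trans ((dif_pos ht).trans ?_)
            rw [← hrun]
          show (colBP hr hm step start out).Run _ ((colBP hr hm step start out).next _
            ((v i).testBit (m - 1 - t))) _
          rw [e]
          refine ih ⟨t + 1, ht⟩ ⟨0, hr⟩ _ ?_ ?_
          · show m * r - (((t : ℕ) + 1) * r + 0) ≤ n
            omega
          · intro j hj
            exact absurd hj (Nat.not_lt_zero _)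
        · have e : (colBP hr hm step start out).next (.inl (t, run 2 m step start v t, i, β))
              ((v i).testBit (m - 1 - t)) = .inr (run 2 m step start v ((t : ℕ) + 1)) := by
            refine (dif_neg hi).trans ((dif_neg ht).trans ?_)
            rw [← hrun]
          show (colBP hr hm step start out).Run _ ((colBP hr hm step start out).next _
            ((v i).testBit (m - 1 - t))) _
          rw [e]
          have hm' : m = (t : ℕ) + 1 := by omega
          refine BP.Run.sink _ _ ?_
          show Sum.inl (out (run 2 m step start v ((t : ℕ) + 1))) = _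
          rw [← hm']
  exact key _ ⟨0, hm⟩ ⟨0, hr⟩ _ le_rfl (fun j hj => absurd hj (Nat.not_lt_zero _))

/-- **Programs of size `m log m` are sufficient for doubly exponential growth.** -/
theorem exists_double (r q : ℕ) (hr : 4 ≤ r) (hq : 1 ≤ q) :
    ∃ (c : Finset ℕ → Bool) (B : BP (Fin r × Fin (2 ^ q)) Bool), ComputedBP r (2 ^ q) c B ∧
      B.size ≤ 18 * r * 2 ^ r * (q * 2 ^ q) ∧ ∀ S ⊆ Finset.range (2 ^ 2 ^ q),
        S.card = 2 * q + r → ¬ Pool.Agent.Y613.HT.Homogeneous r c S := by
  obtain ⟨p, rfl⟩ : ∃ p, q = p + 1 := ⟨q - 1, by omega⟩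
  obtain ⟨r', rfl⟩ : ∃ r', r = r' + 4 := ⟨r - 4, by omega⟩
  have hm : 0 < 2 ^ (p + 1) := by positivity
  refine ⟨colour 2 p r', colBP (show 0 < r' + 4 by omega) hm (mstep 2 p r') St.z outF, ?_, ?_, ?_⟩
  · intro v hv _
    rw [colour_eq 2 p r' v hv]
    exact colBP_run _ hm _ _ _ v
  · rw [colBP_size]
    have h1 : 1 ≤ (r' + 4) * 2 ^ (r' + 4) := Nat.mul_pos (by omega) (by positivity)
    obtain ⟨a, ha⟩ : ∃ a, a = (r' + 4) * 2 ^ (r' + 4) := ⟨_, rfl⟩
    obtain ⟨b, hb⟩ : ∃ b, b = 2 ^ (p + 1) := ⟨_, rfl⟩
    have hw : Fintype.card (St p) ≤ 9 * (p + 1) := (card_St p).trans (by omega)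
    rw [show 18 * (r' + 4) * 2 ^ (r' + 4) * ((p + 1) * 2 ^ (p + 1)) =
      18 * ((r' + 4) * 2 ^ (r' + 4)) * ((p + 1) * 2 ^ (p + 1)) by ring, ← ha, ← hb]
    rw [← ha] at h1
    have hb1 : 1 ≤ b := by rw [hb]; exact Nat.one_le_two_pow
    have hab : 1 ≤ b * a := Nat.mul_pos hb1 h1
    calc b * (Fintype.card (St p) * a) + Fintype.card (St p)
        = (b * a) * Fintype.card (St p) + 1 * Fintype.card (St p) := by ring
      _ ≤ (b * a) * (9 * (p + 1)) + (b * a) * (9 * (p + 1)) :=
          Nat.add_le_add (Nat.mul_le_mul_left _ hw) (Nat.mul_le_mul hab hw)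
      _ = 18 * a * ((p + 1) * b) := by ring
  · intro S hS hcard
    have h := lower 2 p r' le_rfl S hS (by
      rw [hcard]
      omega)
    exact h

end Pool.Agent.Y613.LB
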