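import Mathlib

/-!
# Branching programs and their paths of zero edges
-/

set_option autoImplicit false

namespace Pool.Agent.Y613.LB

open Finset

/-- A deterministic branching program with variables from `X` and outputs from `κ`: every node is a
sink with an output, or it queries a variable, and then the edges with the labels `false`, `true` lead
from the node `v` to `next v false`, `next v true`, which have larger times. -/
structure BP (X κ : Type) where
  /-- the nodes -/
  Node : Type
  fin : Fintype Node
  /-- the first node -/
  start : Node
  /-- the output or the variable of a node -/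
  label : Node → κ ⊕ X
  next : Node → Bool → Node
  time : Node → ℕ
  acyclic : ∀ v x b, label v = .inr x → time v < time (next v b)

namespace BP

variable {X κ : Type} (B : BP X κ)

/-- the number of nodes -/
def size : ℕ := @Fintype.card B.Node B.fin

/-- The path of the input `z` from the node `v` ends in a sink with the output `k`. -/
inductive Run (z : X → Bool) : B.Node → κ → Prop
  | sink (v : B.Node) (k : κ) : B.label v = .inl k → Run z v k
  | step (v : B.Node) (x : X) (k : κ) : B.label v = .inr x → Run z (B.next v (z x)) k → Run z v k

/-- the node `w` is on the path of zero edges from `v` -/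
inductive ZP : B.Node → B.Node → Prop
  | refl (v : B.Node) : ZP v v
  | step (v : B.Node) (x : X) (w : B.Node) : B.label v = .inr x → ZP (B.next v false) w → ZP v w

variable {B}

theorem Run.unique {z : X → Bool} {v : B.Node} {k k' : κ} (h : B.Run z v k)
    (h' : B.Run z v k') : k = k' := by
  induction h with
  | sink v k h =>
    cases h' with
    | sink _ _ h1 =>
      rw [h] at h1
      exact Sum.inl_injective h1
    | step _ x _ h1 _ =>
      rw [h] at h1
      cases h1
  | step v x k h _ ih =>
    cases h' with
    | sink _ _ h1 =>
      rw [h] at h1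
      cases h1
    | step _ x' _ h1 h2 =>
      rw [h] at h1
      have e := Sum.inr_injective h1
      rw [← e] at h2
      exact ih h2

theorem ZP.eq_or_lt {v w : B.Node} (h : B.ZP v w) : v = w ∨ B.time v < B.time w := by
  induction h with
  | refl v => exact Or.inl rfl
  | step v x w h _ ih =>
    right
    have h1 := B.acyclic v x false h
    rcases ih with ih | ih
    · rw [← ih]; exact h1
    · exact h1.trans ih

theorem ZP.le {v w : B.Node} (h : B.ZP v w) : B.time v ≤ B.time w := by
  rcases h.eq_or_lt with h | h
  · rw [h]
  · exact h.le

theorem zp_iff {v w : B.Node} {x : X} (h : B.label v = .inr x) :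
    B.ZP v w ↔ v = w ∨ B.ZP (B.next v false) w := by
  constructor
  · intro h1
    cases h1 with
    | refl => exact Or.inl rfl
    | step _ _ _ _ h2 => exact Or.inr h2
  · rintro (rfl | h1)
    · exact .refl _
    · exact .step v x w h h1

theorem zp_sink {v w : B.Node} {k : κ} (h : B.label v = .inl k) : B.ZP v w ↔ v = w := by
  constructor
  · intro h1
    cases h1 with
    | refl => rfl
    | step _ _ _ h2 _ =>
      rw [h] at h2
      cases h2
  · rintro rfl
    exact .refl _

/-- walking along zero edges -/
theorem run_walk {z : X → Bool} {v v' : B.Node} (h : B.ZP v v')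
    (hz : ∀ w, B.ZP v w → B.time w < B.time v' → ∀ x, B.label w = .inr x → z x = false) (k : κ) :
    B.Run z v k ↔ B.Run z v' k := by
  induction h with
  | refl v => exact Iff.rfl
  | step v x w h hzp ih =>
    have h1 := B.acyclic v x false h
    have h2 : z x = false := hz v (.refl v) (lt_of_lt_of_le h1 hzp.le) x h
    rw [← ih fun w' hw' hlt => hz w' (.step v x w' h hw') hlt]
    constructor
    · intro h3
      cases h3 with
      | sink _ _ h4 =>
        rw [h] at h4
        cases h4
      | step _ x' _ h4 h5 =>
        rw [h] at h4
        rw [← Sum.inr_injective h4, h2] at h5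
        exact h5
    · intro h3
      refine .step v x k h ?_
      rw [h2]
      exact h3

/-- the path of zero edges ends in a sink -/
theorem exists_sink (v : B.Node) : ∃ w k, B.ZP v w ∧ B.label w = .inl k := by
  classical
  letI := B.fin
  obtain ⟨T, hT⟩ : ∃ T, ∀ v : B.Node, B.time v ≤ T :=
    ⟨Finset.univ.sup B.time, fun v => Finset.le_sup (Finset.mem_univ v)⟩
  have key : ∀ n, ∀ v : B.Node, T - B.time v ≤ n → ∃ w k, B.ZP v w ∧ B.label w = .inl k := by
    intro n
    induction n with
    | zero =>
      intro v hv
      rcases h : B.label v with k | x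
      · exact ⟨v, k, .refl v, h⟩
      · have h1 := B.acyclic v x false h
        have h2 := hT (B.next v false)
        omega
    | succ n ih =>
      intro v hv
      rcases h : B.label v with k | x
      · exact ⟨v, k, .refl v, h⟩
      · have h1 := B.acyclic v x false h
        have h2 := hT (B.next v false)
        obtain ⟨w, k, h3, h4⟩ := ih (B.next v false) (by omega)
        exact ⟨w, k, .step v x w h h3, h4⟩
  exact key _ v le_rfl

/-- the output at the end of the path of zero edges -/
noncomputable def zc (v : B.Node) : κ := (exists_sink v).choose_spec.choose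

theorem zc_spec (v : B.Node) : ∃ w, B.ZP v w ∧ B.label w = .inl (zc v) :=
  ⟨(exists_sink v).choose, (exists_sink v).choose_spec.choose_spec⟩

/-- without a one on the path of zero edges -/
theorem run_zero {z : X → Bool} {v : B.Node}
    (hz : ∀ w, B.ZP v w → ∀ x, B.label w = .inr x → z x = false) (k : κ) :
    B.Run z v k ↔ k = zc v := by
  obtain ⟨w, h1, h2⟩ := zc_spec v
  rw [run_walk h1 (fun w' hw' _ x hx => hz w' hw' x hx) k]
  constructor
  · intro h3
    exact h3.unique (.sink w _ h2)
  · rintro rfl
    exact .sink w _ h2

/-- **The numbering of the forest of zero edges.** -/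
theorem exists_numbering_on (S : Finset B.Node) :
    (∀ v ∈ S, ∀ x, B.label v = .inr x → B.next v false ∈ S) →
    ∃ lo hi : B.Node → ℕ, ∀ u ∈ S, ∀ v ∈ S, B.ZP u v ↔ lo v ≤ lo u ∧ lo u < hi v := by
  classical
  obtain ⟨n, hn⟩ : ∃ n, #S = n := ⟨_, rfl⟩
  induction n generalizing S with
  | zero =>
    intro _
    rw [Finset.card_eq_zero] at hn
    subst hn
    exact ⟨fun _ => 0, fun _ => 0, by simp⟩
  | succ n ih =>
    intro hS
    obtain ⟨v₀, hv₀, hmin⟩ := Finset.exists_min_image S B.time
      (Finset.card_pos.1 (by omega))
    have hS' : ∀ v ∈ S.erase v₀, ∀ x, B.label v = .inr x → B.next v false ∈ S.erase v₀ := by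
      intro v hv x hx
      have h1 := Finset.mem_erase.1 hv
      refine Finset.mem_erase.2 ⟨?_, hS v h1.2 x hx⟩
      intro h2
      have h3 := B.acyclic v x false hx
      rw [h2] at h3
      have := hmin v h1.2
      omega
    obtain ⟨lo, hi, h⟩ := ih (S.erase v₀) (by rw [Finset.card_erase_of_mem hv₀]; omega) hS'
    have hstay : ∀ u v : B.Node, B.ZP u v → u ∈ S.erase v₀ → v ∈ S.erase v₀ := by
      intro u v huv
      induction huv with
      | refl => exact id
      | step u x w hx _ ih' => exact fun hu => ih' (hS' u hu x hx)
    have hno : ∀ u ∈ S.erase v₀, ¬ B.ZP u v₀ := fun u hu huv =>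
      (Finset.mem_erase.1 (hstay u v₀ huv hu)).1 rfl
    rcases hlab : B.label v₀ with k | x
    · -- a sink
      obtain ⟨b, hb⟩ : ∃ b, ∀ v ∈ S, lo v < b ∧ hi v ≤ b :=
        ⟨S.sup lo + 1 + S.sup hi, fun v hv => by
          have h1 := Finset.le_sup (f := lo) hv
          have h2 := Finset.le_sup (f := hi) hv
          omega⟩
      refine ⟨Function.update lo v₀ b, Function.update hi v₀ (b + 1), ?_⟩
      intro u hu v hv
      by_cases hu0 : u = v₀
      · subst hu0
        rw [zp_sink hlab]
        by_cases hv0 : v = u
        · subst hv0
          simp
        · have h1 := hb v hv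
          rw [Function.update_self, Function.update_of_ne hv0, Function.update_of_ne hv0]
          constructor
          · intro h2
            exact absurd h2.symm hv0
          · rintro ⟨-, h2⟩
            omega
      · have h1 := hb u hu
        rw [Function.update_of_ne hu0]
        by_cases hv0 : v = v₀
        · subst hv0
          rw [Function.update_self, Function.update_self]
          constructor
          · intro h2
            exact absurd h2 (hno u (Finset.mem_erase.2 ⟨hu0, hu⟩))
          · rintro ⟨h2, -⟩
            omega
        · rw [Function.update_of_ne hv0, Function.update_of_ne hv0]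
          exact h u (Finset.mem_erase.2 ⟨hu0, hu⟩) v (Finset.mem_erase.2 ⟨hv0, hv⟩)
    · -- a query
      have hp : B.next v₀ false ∈ S.erase v₀ := by
        refine Finset.mem_erase.2 ⟨?_, hS v₀ hv₀ x hlab⟩
        intro h2
        have h3 := B.acyclic v₀ x false hlab
        rw [h2] at h3
        omega
      obtain ⟨p, hpdef⟩ : ∃ p, p = B.next v₀ false := ⟨_, rfl⟩
      rw [← hpdef] at hp
      refine ⟨Function.update (fun v => if lo v ≤ lo p then lo v else lo v + 1) v₀ (lo p + 1),
        Function.update (fun v => if hi v ≤ lo p then hi v else hi v + 1) v₀ (lo p + 2), ?_⟩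
      intro u hu v hv
      by_cases hu0 : u = v₀
      · subst hu0
        rw [zp_iff hlab, ← hpdef]
        by_cases hv0 : v = u
        · subst hv0
          simp
        · have h1 := h p hp v (Finset.mem_erase.2 ⟨hv0, hv⟩)
          rw [h1, Function.update_self, Function.update_of_ne hv0, Function.update_of_ne hv0]
          constructor
          · rintro (h2 | ⟨h2, h3⟩)
            · exact absurd h2.symm hv0
            · rw [if_pos h2, if_neg (by omega)]
              omega
          · rintro ⟨h2, h3⟩
            right
            split_ifs at h2 h3 <;> omega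
      · rw [Function.update_of_ne hu0]
        by_cases hv0 : v = v₀
        · subst hv0
          rw [Function.update_self, Function.update_self]
          constructor
          · intro h2
            exact absurd h2 (hno u (Finset.mem_erase.2 ⟨hu0, hu⟩))
          · rintro ⟨h2, h3⟩
            exfalso
            split_ifs at h2 h3 <;> omega
        · rw [Function.update_of_ne hv0, Function.update_of_ne hv0,
            h u (Finset.mem_erase.2 ⟨hu0, hu⟩) v (Finset.mem_erase.2 ⟨hv0, hv⟩)]
          constructor
          · rintro ⟨h2, h3⟩
            split_ifs <;> omega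
          · rintro ⟨h2, h3⟩
            split_ifs at h2 h3 <;> omega

theorem exists_numbering (B : BP X κ) :
    ∃ lo hi : B.Node → ℕ, ∀ u v, B.ZP u v ↔ lo v ≤ lo u ∧ lo u < hi v := by
  letI := B.fin
  obtain ⟨lo, hi, h⟩ := exists_numbering_on (B := B) Finset.univ
    (fun _ _ _ _ => Finset.mem_univ _)
  exact ⟨lo, hi, fun u v => h u (Finset.mem_univ u) v (Finset.mem_univ v)⟩

end BP

end Pool.Agent.Y613.LB
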