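import Pool.Agent.Y613.CP.Select

/-!
# Windows: a polynomial Ramsey theorem for monotone sequences with a good exponent
-/

set_option autoImplicit false

namespace Pool.Agent.Y613.LB

open Finset

/-- monotone or antitone in each argument -/
structure Bi (M : ℕ) (R : ℕ → ℕ → Prop) : Prop where
  left : (∀ j j' h, j ≤ j' → j' < M → h < M → R j h → R j' h) ∨
    (∀ j j' h, j ≤ j' → j' < M → h < M → R j' h → R j h)
  right : (∀ j h h', h ≤ h' → h' < M → j < M → R j h → R j h') ∨
    (∀ j h h', h ≤ h' → h' < M → j < M → R j h' → R j h)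

theorem window_one {M : ℕ} {R : ℕ → ℕ → Prop} (hR : Bi M R) {a K l : ℕ} (haM : a + K ≤ M)
    (hl : 1 ≤ l) (hK : 2 * l ≤ K) :
    (∃ a', a ≤ a' ∧ a' + l ≤ a + K ∧ ((∀ j h, a' ≤ j → j < h → h < a' + l → R j h) ∨
      (∀ j h, a' ≤ j → j < h → h < a' + l → ¬ R j h))) ∨
    (∀ j h, a ≤ j → j + l ≤ h → h < a + K → R j h) ∨
    (∀ j h, a ≤ j → j + l ≤ h → h < a + K → ¬ R j h) := by
  rcases hR.left with h1 | h1 <;> rcases hR.right with h2 | h2
  · -- both monotone
    left
    by_cases hc : R (a + l) (a + l)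
    · refine ⟨a + l, by omega, by omega, Or.inl fun j h hj hjh hh => ?_⟩
      exact h1 (a + l) j h (by omega) (by omega) (by omega)
        (h2 (a + l) (a + l) h (by omega) (by omega) (by omega) hc)
    · refine ⟨a, by omega, by omega, Or.inr fun j h hj hjh hh hR' => hc ?_⟩
      exact h1 j (a + l) (a + l) (by omega) (by omega) (by omega)
        (h2 j h (a + l) (by omega) (by omega) (by omega) hR')
  · -- monotone, antitone
    by_cases hex : ∃ j h, a ≤ j ∧ j + l ≤ h ∧ h < a + K ∧ R j h
    · left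
      obtain ⟨j, h, h3, h4, h5, h6⟩ := hex
      refine ⟨j, h3, by omega, Or.inl fun j' h' hj' hjh' hh' => ?_⟩
      exact h1 j j' h' (by omega) (by omega) (by omega)
        (h2 j h' h (by omega) (by omega) (by omega) h6)
    · right; right
      intro j h h3 h4 h5 h6
      exact hex ⟨j, h, h3, h4, h5, h6⟩
  · -- antitone, monotone
    by_cases hex : ∃ j h, a ≤ j ∧ j + l ≤ h ∧ h < a + K ∧ ¬ R j h
    · left
      obtain ⟨j, h, h3, h4, h5, h6⟩ := hex
      refine ⟨j, h3, by omega, Or.inr fun j' h' hj' hjh' hh' h7 => h6 ?_⟩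
      exact h2 j h' h (by omega) (by omega) (by omega)
        (h1 j j' h' (by omega) (by omega) (by omega) h7)
    · right; left
      intro j h h3 h4 h5
      by_contra h6
      exact hex ⟨j, h, h3, h4, h5, h6⟩
  · -- both antitone
    left
    by_cases hc : R (a + l) (a + l)
    · refine ⟨a, by omega, by omega, Or.inl fun j h hj hjh hh => ?_⟩
      exact h1 j (a + l) h (by omega) (by omega) (by omega)
        (h2 (a + l) h (a + l) (by omega) (by omega) (by omega) hc)
    · refine ⟨a + l, by omega, by omega, Or.inr fun j h hj hjh hh hR' => hc ?_⟩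
      exact h1 (a + l) j (a + l) (by omega) (by omega) (by omega)
        (h2 j (a + l) h (by omega) (by omega) (by omega) hR')

theorem windows {ι : Type} {M : ℕ} (R : ι → ℕ → ℕ → Prop) (x : ℕ) (hx : 1 ≤ x) :
    ∀ (n : ℕ) (I : Finset ι), #I = n → (∀ i ∈ I, Bi M (R i)) → ∀ a K, a + K ≤ M →
      x * (2 * x) ^ n ≤ K → ∃ J ⊆ Finset.Ico a (a + K), #J = x ∧
        ∀ i ∈ I, (∀ j ∈ J, ∀ h ∈ J, j < h → R i j h) ∨
          (∀ j ∈ J, ∀ h ∈ J, j < h → ¬ R i j h) := by
  classical
  intro n
  induction n with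
  | zero =>
    intro I hI _ a K _ hK
    rw [pow_zero, mul_one] at hK
    rw [Finset.card_eq_zero] at hI
    subst hI
    obtain ⟨J, hJ, hJx⟩ := Finset.exists_subset_card_eq (s := Finset.Ico a (a + K)) (n := x)
      (by rw [Nat.card_Ico]; omega)
    exact ⟨J, hJ, hJx, by simp⟩
  | succ n ih =>
    intro I hI hR a K haM hK
    obtain ⟨l, hl⟩ : ∃ l, l = x * (2 * x) ^ n := ⟨_, rfl⟩
    have hl1 : 1 ≤ l := by
      rw [hl]
      exact Nat.mul_pos hx (Nat.pow_pos (by omega))
    have hKl : 2 * x * l ≤ K := by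
      refine le_trans (le_of_eq ?_) hK
      rw [hl]
      ring
    have h2l : 2 * l ≤ K := le_trans (Nat.mul_le_mul_right _ (by omega)) hKl
    by_cases hex : ∃ i ∈ I, ∃ a', a ≤ a' ∧ a' + l ≤ a + K ∧
        ((∀ j h, a' ≤ j → j < h → h < a' + l → R i j h) ∨
          (∀ j h, a' ≤ j → j < h → h < a' + l → ¬ R i j h))
    · obtain ⟨i, hi, a', h1, h2, h3⟩ := hex
      obtain ⟨J, hJ, hJx, hJR⟩ := ih (I.erase i) (by rw [Finset.card_erase_of_mem hi]; omega)
        (fun i' hi' => hR i' (Finset.mem_of_mem_erase hi')) a' l (by omega) hl.ge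
      refine ⟨J, fun j hj => ?_, hJx, ?_⟩
      · have := Finset.mem_Ico.1 (hJ hj)
        rw [Finset.mem_Ico]
        omega
      · intro i' hi'
        by_cases hii : i' = i
        · subst hii
          rcases h3 with h3 | h3
          · refine Or.inl fun j hj h hh hjh => ?_
            have e1 := Finset.mem_Ico.1 (hJ hj)
            have e2 := Finset.mem_Ico.1 (hJ hh)
            exact h3 j h e1.1 hjh e2.2
          · refine Or.inr fun j hj h hh hjh => ?_
            have e1 := Finset.mem_Ico.1 (hJ hj)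
            have e2 := Finset.mem_Ico.1 (hJ hh)
            exact h3 j h e1.1 hjh e2.2
        · exact hJR i' (Finset.mem_erase.2 ⟨hii, hi'⟩)
    · have hsp : ∀ i ∈ I, (∀ j h, a ≤ j → j + l ≤ h → h < a + K → R i j h) ∨
          (∀ j h, a ≤ j → j + l ≤ h → h < a + K → ¬ R i j h) := by
        intro i hi
        rcases window_one (hR i hi) haM hl1 h2l with h | h
        · exact absurd ⟨i, hi, h⟩ hex
        · exact h
      have hin : Function.Injective fun k : ℕ => a + k * l := by
        intro k k' h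
        simp only at h
        exact Nat.eq_of_mul_eq_mul_right hl1 (by omega)
      have hlt : ∀ k < x, a + k * l < a + K := by
        intro k hk
        have h1 : k * l < 2 * x * l := Nat.mul_lt_mul_of_pos_right (by omega) hl1
        omega
      have hgap : ∀ k k', a + k * l < a + k' * l → a + k * l + l ≤ a + k' * l := by
        intro k k' h
        have h1 : k < k' := by
          by_contra h2
          have := Nat.mul_le_mul_right l (not_lt.1 h2)
          omega
        have h2 : (k + 1) * l ≤ k' * l := Nat.mul_le_mul_right l h1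
        have h3 : (k + 1) * l = k * l + l := by ring
        omega
      refine ⟨(Finset.range x).image fun k => a + k * l, ?_, ?_, ?_⟩
      · intro j hj
        obtain ⟨k, hk, rfl⟩ := Finset.mem_image.1 hj
        exact Finset.mem_Ico.2 ⟨by omega, hlt k (Finset.mem_range.1 hk)⟩
      · rw [Finset.card_image_of_injective _ hin, Finset.card_range]
      · intro i hi
        rcases hsp i hi with h1 | h1
        · refine Or.inl fun j hj h hh hjh => ?_
          obtain ⟨k, hk, rfl⟩ := Finset.mem_image.1 hj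
          obtain ⟨k', hk', rfl⟩ := Finset.mem_image.1 hh
          exact h1 _ _ (by omega) (hgap k k' hjh) (hlt k' (Finset.mem_range.1 hk'))
        · refine Or.inr fun j hj h hh hjh => ?_
          obtain ⟨k, hk, rfl⟩ := Finset.mem_image.1 hj
          obtain ⟨k', hk', rfl⟩ := Finset.mem_image.1 hh
          exact h1 _ _ (by omega) (hgap k k' hjh) (hlt k' (Finset.mem_range.1 hk'))

/-- **Selection with windows.** -/
theorem select_windows {α ι : Type} (F : α → ℕ → ℕ) (A : Finset α) (I : Finset ι) (u v : ι → α)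
    (s t : ι → ℕ) (hu : ∀ i ∈ I, u i ∈ A) (hv : ∀ i ∈ I, v i ∈ A) (x : ℕ) (hx : 1 ≤ x)
    (B : Finset ℕ) (hB : (2 * (x * (2 * x) ^ #I)) ^ 2 ^ #A ≤ #B) :
    ∃ T ⊆ B, #T = x ∧ ∀ i ∈ I, (∀ j ∈ T, ∀ h ∈ T, j < h → F (u i) j + s i < F (v i) h + t i) ∨
      (∀ j ∈ T, ∀ h ∈ T, j < h → ¬ F (u i) j + s i < F (v i) h + t i) := by
  classical
  obtain ⟨M, hM⟩ : ∃ M, M = x * (2 * x) ^ #I := ⟨_, rfl⟩
  rw [← hM] at hB
  obtain ⟨T₀, hT₀, hT₀M, hmon⟩ := Pool.Agent.Y613.CP.select F F A M B hB
  obtain ⟨T₁, hT₁, hT₁M⟩ := Finset.exists_subset_card_eq hT₀M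
  let e : ℕ → ℕ := fun i => if h : i < M then T₁.orderEmbOfFin hT₁M ⟨i, h⟩ else 0
  have he : ∀ i < M, e i ∈ T₁ := by
    intro i hi
    simp only [e, dif_pos hi]
    exact Finset.orderEmbOfFin_mem T₁ hT₁M _
  have hemono : ∀ i j, i < j → j < M → e i < e j := by
    intro i j hij hj
    simp only [e, dif_pos hj, dif_pos (hij.trans hj)]
    exact (T₁.orderEmbOfFin hT₁M).strictMono (by rw [Fin.lt_def]; exact hij)
  have hF : ∀ a ∈ A, (∀ i j, i ≤ j → j < M → F a (e i) ≤ F a (e j)) ∨
      (∀ i j, i ≤ j → j < M → F a (e j) ≤ F a (e i)) := by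
    intro a ha
    rcases hmon a ha with h | h
    · left
      intro i j hij hj
      rcases hij.eq_or_lt with rfl | hij
      · exact le_rfl
      · exact (h _ (hT₁ (he i (hij.trans hj))) _ (hT₁ (he j hj)) (hemono i j hij hj)).le
    · right
      intro i j hij hj
      rcases hij.eq_or_lt with rfl | hij
      · exact le_rfl
      · exact h _ (hT₁ (he i (hij.trans hj))) _ (hT₁ (he j hj)) (hemono i j hij hj)
  obtain ⟨J, hJ, hJx, hJR⟩ := windows (M := M)
    (fun i j h => F (u i) (e j) + s i < F (v i) (e h) + t i) x hx #I I rfl (by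
      intro i hi
      refine ⟨?_, ?_⟩
      · rcases hF _ (hu i hi) with h | h
        · right
          intro j j' k h1 h2 h3 h4
          have := h j j' h1 h2
          omega
        · left
          intro j j' k h1 h2 h3 h4
          have := h j j' h1 h2
          omega
      · rcases hF _ (hv i hi) with h | h
        · left
          intro j k k' h1 h2 h3 h4
          have := h k k' h1 h2
          omega
        · right
          intro j k k' h1 h2 h3 h4
          have := h k k' h1 h2
          omega) 0 M (by omega) hM.ge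
  have hJM : ∀ j ∈ J, j < M := fun j hj => by
    have := (Finset.mem_Ico.1 (hJ hj)).2
    omega
  have hinj : Set.InjOn e (J : Set ℕ) := by
    intro i hi j hj hij
    rcases lt_trichotomy i j with h | h | h
    · exact absurd hij (hemono i j h (hJM j hj)).ne
    · exact h
    · exact absurd hij (hemono j i h (hJM i hi)).ne'
  have hrefl : ∀ i ∈ J, ∀ j ∈ J, e i < e j → i < j := by
    intro i hi j hj hij
    by_contra h
    rcases (not_lt.1 h).eq_or_lt with h1 | h1
    · rw [h1] at hij
      exact lt_irrefl _ hij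
    · have := hemono j i h1 (hJM i hi)
      omega
  refine ⟨J.image e, ?_, ?_, ?_⟩
  · intro y hy
    obtain ⟨i, hi, rfl⟩ := Finset.mem_image.1 hy
    exact hT₀ (hT₁ (he i (hJM i hi)))
  · rw [Finset.card_image_of_injOn hinj, hJx]
  · intro i hi
    rcases hJR i hi with h | h
    · refine Or.inl fun y hy z hz hyz => ?_
      obtain ⟨j, hj, rfl⟩ := Finset.mem_image.1 hy
      obtain ⟨k, hk, rfl⟩ := Finset.mem_image.1 hz
      exact h j hj k hk (hrefl j hj k hk hyz)
    · refine Or.inr fun y hy z hz hyz => ?_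
      obtain ⟨j, hj, rfl⟩ := Finset.mem_image.1 hy
      obtain ⟨k, hk, rfl⟩ := Finset.mem_image.1 hz
      exact h j hj k hk (hrefl j hj k hk hyz)

end Pool.Agent.Y613.LB
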