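import Pool.Agent.Y613.LB.Sim
import Pool.Agent.Y613.LB.Window
import Pool.Agent.Y613.HT.Defs

/-!
# Colourings computed by branching programs of linear size
-/

set_option autoImplicit false

namespace Pool.Agent.Y613.LB

open Finset

theorem exists_slots {α : Type} [Nonempty α] (A : Finset α) (P : ℕ) (h : #A ≤ P) :
    ∃ f : Fin P → α, ∀ v ∈ A, ∃ c, f c = v := by
  classical
  refine ⟨fun c => if hc : (c : ℕ) < #A then (A.equivFin.symm ⟨c, hc⟩ : α) else
    Classical.arbitrary α, ?_⟩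
  intro v hv
  have h1 := (A.equivFin ⟨v, hv⟩).2
  refine ⟨⟨A.equivFin ⟨v, hv⟩, lt_of_lt_of_le h1 h⟩, ?_⟩
  simp only [h1, dif_pos]
  simp

variable {κ : Type} {r m : ℕ}

open Classical in
/-- the column of a node -/
noncomputable def colOf (B : BP (Fin r × Fin m) κ) (v : B.Node) : ℕ :=
  match B.label v with
  | .inl _ => m
  | .inr x => (x.2 : ℕ)

theorem colOf_of_at {B : BP (Fin r × Fin m) κ} {v : B.Node} {a : Fin r} {j : ℕ}
    (h : At B v a j) : colOf B v = j := by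
  obtain ⟨x, h1, -, h3⟩ := h
  unfold colOf
  rw [h1]
  exact h3

/-- half of the columns have few nodes -/
theorem exists_good {B : BP (Fin r × Fin m) κ} {L : ℕ} (hL : 1 ≤ L) (hs : B.size ≤ L * m) :
    ∃ G ⊆ Finset.range m, m ≤ 2 * #G ∧ ∀ j ∈ G, ∃ f : Fin (2 * L) → B.Node,
      ∀ v a, At B v a j → ∃ c, f c = v := by
  classical
  let _ := B.fin
  have : Nonempty B.Node := ⟨B.start⟩
  let col : ℕ → Finset B.Node := fun j => Finset.univ.filter fun v => colOf B v = j
  refine ⟨(Finset.range m).filter fun j => #(col j) ≤ 2 * L, Finset.filter_subset _ _, ?_, ?_⟩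
  · have h1 : ∑ j ∈ Finset.range m, #(col j) ≤ L * m := by
      have h2 := Finset.sum_card_fiberwise_eq_card_filter (Finset.univ : Finset B.Node)
        (Finset.range m) (colOf B)
      have h3 : #((Finset.univ : Finset B.Node).filter fun v => colOf B v ∈ Finset.range m) ≤
          #(Finset.univ : Finset B.Node) := Finset.card_filter_le _ _
      have h4 : #(Finset.univ : Finset B.Node) = B.size := by
        rw [Finset.card_univ]
        rfl
      show ∑ j ∈ Finset.range m, #((Finset.univ : Finset B.Node).filter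
        fun v => colOf B v = j) ≤ L * m
      rw [h2]
      exact h3.trans (h4.le.trans hs)
    have h5 := Finset.card_filter_add_card_filter_not (s := Finset.range m)
      (fun j => #(col j) ≤ 2 * L)
    rw [Finset.card_range] at h5
    have h6 : #((Finset.range m).filter fun j => ¬ #(col j) ≤ 2 * L) * (2 * L) ≤ L * m := by
      refine le_trans ?_ h1
      rw [← smul_eq_mul]
      refine le_trans (Finset.card_nsmul_le_sum _ (fun j => #(col j)) _ ?_)
        (Finset.sum_le_sum_of_subset (Finset.filter_subset _ _))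
      intro j hj
      have := (Finset.mem_filter.1 hj).2
      show 2 * L ≤ #(col j)
      omega
    have h7 : #((Finset.range m).filter fun j => ¬ #(col j) ≤ 2 * L) * 2 ≤ m := by
      have h8 : L * (#((Finset.range m).filter fun j => ¬ #(col j) ≤ 2 * L) * 2) ≤ L * m := by
        refine le_trans (le_of_eq ?_) h6
        ring
      exact Nat.le_of_mul_le_mul_left h8 hL
    omega
  · intro j hj
    obtain ⟨f, hf⟩ := exists_slots (col j) (2 * L) (Finset.mem_filter.1 hj).2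
    exact ⟨f, fun v a hv => hf v (Finset.mem_filter.2 ⟨Finset.mem_univ _, colOf_of_at hv⟩)⟩

/-- **Alike columns.** -/
theorem exists_alike [Fintype κ] {B : BP (Fin r × Fin m) κ} {L n : ℕ} (hL : 1 ≤ L) (hn : 1 ≤ n)
    (hs : B.size ≤ L * m)
    (h : 2 * (((2 ^ r) ^ (2 * L) * (2 ^ (2 * L) * (Fintype.card κ ^ (2 * L) *
      ((2 ^ (2 * L)) ^ (2 * L) * (2 ^ (2 * L)) ^ (2 * L))))) *
        (2 * (n * (2 * n) ^ (6 * ((2 * L) * (2 * L))))) ^ 2 ^ (4 * (2 * L))) ≤ m) :
    ∃ (N : ℕ → Fin (2 * L) → B.Node) (J : Finset ℕ), J ⊆ Finset.range m ∧ #J = n ∧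
      Alike B N J := by
  classical
  have : Nonempty B.Node := ⟨B.start⟩
  obtain ⟨G, hG, hGm, hGs⟩ := exists_good hL hs
  have hN : ∀ j, ∃ f : Fin (2 * L) → B.Node, j ∈ G → ∀ v a, At B v a j → ∃ c, f c = v := by
    intro j
    by_cases hj : j ∈ G
    · obtain ⟨f, hf⟩ := hGs j hj
      exact ⟨f, fun _ => hf⟩
    · exact ⟨fun _ => B.start, fun h => absurd h hj⟩
  choose N hN using hN
  obtain ⟨lo, hi, hlo⟩ := BP.exists_numbering B
  -- the unary type
  let Θ := (Fin (2 * L) → Fin r → Prop) × (Fin (2 * L) → Prop) × (Fin (2 * L) → κ) ×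
    (Fin (2 * L) → Fin (2 * L) → Prop) × (Fin (2 * L) → Fin (2 * L) → Prop)
  let θ : ℕ → Θ := fun j => (fun c a => At B (N j c) a j, fun c => B.ZP B.start (N j c),
    fun c => BP.zc (B.next (N j c) true), fun c c' => B.ZP (B.next (N j c) true) (N j c'),
    fun c c' => B.time (N j c) < B.time (N j c'))
  have hΘ : Fintype.card Θ = (2 ^ r) ^ (2 * L) * (2 ^ (2 * L) * (Fintype.card κ ^ (2 * L) *
      ((2 ^ (2 * L)) ^ (2 * L) * (2 ^ (2 * L)) ^ (2 * L)))) := by
    simp only [Θ, Fintype.card_prod, Fintype.card_fun, Fintype.card_prop, Fintype.card_fin]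
  obtain ⟨y, -, hy⟩ := Finset.exists_le_card_fiber_of_mul_le_card_of_maps_to
    (s := G) (t := (Finset.univ : Finset Θ)) (f := θ)
    (n := (2 * (n * (2 * n) ^ (6 * ((2 * L) * (2 * L))))) ^ 2 ^ (4 * (2 * L)))
    (fun _ _ => Finset.mem_univ _)
    ⟨θ 0, Finset.mem_univ _⟩ (by
      rw [Finset.card_univ, hΘ]
      have := h.trans hGm
      omega)
  -- comparisons
  let F : Fin 4 × Fin (2 * L) → ℕ → ℕ := fun i j =>
    match i.1 with
    | 0 => lo (B.next (N j i.2) true)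
    | 1 => lo (N j i.2)
    | 2 => hi (N j i.2)
    | 3 => B.time (N j i.2)
  let u : Fin 6 × Fin (2 * L) × Fin (2 * L) → Fin 4 × Fin (2 * L) := fun i =>
    match i.1 with
    | 0 => (0, i.2.1)
    | 1 => (0, i.2.1)
    | 2 => (1, i.2.2)
    | 3 => (2, i.2.2)
    | 4 => (3, i.2.1)
    | 5 => (3, i.2.2)
  let v : Fin 6 × Fin (2 * L) × Fin (2 * L) → Fin 4 × Fin (2 * L) := fun i =>
    match i.1 with
    | 0 => (1, i.2.2)
    | 1 => (2, i.2.2)
    | 2 => (0, i.2.1)
    | 3 => (0, i.2.1)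
    | 4 => (3, i.2.2)
    | 5 => (3, i.2.1)
  let t : Fin 6 × Fin (2 * L) × Fin (2 * L) → ℕ := fun i =>
    match i.1 with
    | 0 => 0
    | 1 => 0
    | 2 => 1
    | 3 => 1
    | 4 => 0
    | 5 => 1
  obtain ⟨J, hJ', hJn, hJ'h⟩ := select_windows F Finset.univ Finset.univ u v (fun _ => 0) t
    (fun _ _ => Finset.mem_univ _) (fun _ _ => Finset.mem_univ _) n hn
    (G.filter fun j => θ j = y) (by
      refine le_trans (le_of_eq ?_) hy
      rw [Finset.card_univ, Fintype.card_prod, Fintype.card_prod, Fintype.card_fin,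
        Fintype.card_fin, Finset.card_univ, Fintype.card_prod, Fintype.card_fin,
        Fintype.card_fin])
  have hJG : ∀ j ∈ J, j ∈ G := fun j hj => (Finset.mem_filter.1 (hJ' hj)).1
  have hJθ : ∀ j ∈ J, ∀ j' ∈ J, θ j = θ j' := fun j hj j' hj' =>
    (Finset.mem_filter.1 (hJ' hj)).2.trans (Finset.mem_filter.1 (hJ' hj')).2.symm
  have hcmp : ∀ i, ∀ j ∈ J, ∀ h ∈ J, j < h → ∀ j' ∈ J, ∀ h' ∈ J, j' < h' →
      (F (u i) j + 0 < F (v i) h + t i ↔ F (u i) j' + 0 < F (v i) h' + t i) := by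
    intro i j hj h hh hjh j' hj' h' hh' hjh'
    rcases hJ'h i (Finset.mem_univ _) with h1 | h1
    · have h2 := h1 j hj h hh hjh
      have h3 := h1 j' hj' h' hh' hjh'
      tauto
    · have h2 := h1 j hj h hh hjh
      have h3 := h1 j' hj' h' hh' hjh'
      tauto
  refine ⟨N, J, fun j hj => hG (hJG j hj), hJn, ?_⟩
  refine ⟨fun j hj => hN j (hJG j hj), ?_, ?_, ?_, ?_, ?_⟩
  · intro c a j hj j' hj'
    have h1 := congrArg (fun θ => θ.1 c a) (hJθ j hj j' hj')
    exact iff_of_eq h1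
  · intro c j hj j' hj'
    have h1 := congrArg (fun θ => θ.2.1 c) (hJθ j hj j' hj')
    exact iff_of_eq h1
  · intro c j hj j' hj'
    exact congrArg (fun θ => θ.2.2.1 c) (hJθ j hj j' hj')
  · intro c c'
    refine ⟨?_, ?_, ?_⟩
    · intro j hj h hh hjh j' hj' h' hh' hjh'
      have h1 := hcmp (0, c, c') j hj h hh hjh j' hj' h' hh' hjh'
      have h2 := hcmp (1, c, c') j hj h hh hjh j' hj' h' hh' hjh'
      simp only [F, u, v, t] at h1 h2
      show B.ZP _ _ ↔ B.ZP _ _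
      rw [hlo, hlo]
      omega
    · intro j hj h hh hjh j' hj' h' hh' hjh'
      have h1 := hcmp (2, c, c') h hh j hj hjh h' hh' j' hj' hjh'
      have h2 := hcmp (3, c, c') h hh j hj hjh h' hh' j' hj' hjh'
      simp only [F, u, v, t] at h1 h2
      show B.ZP _ _ ↔ B.ZP _ _
      rw [hlo, hlo]
      omega
    · intro j hj j' hj'
      exact iff_of_eq (congrArg (fun θ => θ.2.2.2.1 c c') (hJθ j hj j' hj'))
  · intro c c'
    refine ⟨?_, ?_, ?_⟩
    · intro j hj h hh hjh j' hj' h' hh' hjh'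
      have h1 := hcmp (4, c, c') j hj h hh hjh j' hj' h' hh' hjh'
      simp only [F, u, v, t] at h1
      show B.time _ < B.time _ ↔ B.time _ < B.time _
      omega
    · intro j hj h hh hjh j' hj' h' hh' hjh'
      have h1 := hcmp (5, c, c') h hh j hj hjh h' hh' j' hj' hjh'
      simp only [F, u, v, t] at h1
      show B.time _ < B.time _ ↔ B.time _ < B.time _
      omega
    · intro j hj j' hj'
      exact iff_of_eq (congrArg (fun θ => θ.2.2.2.2 c c') (hJθ j hj j' hj'))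

/-- The colouring `c` of the `r`-subsets of `{0, …, 2 ^ m - 1}` is computed by the branching program
`B`, whose variables are the digits: the digit number `j` of the element number `i` of the set. -/
def ComputedBP (r m : ℕ) {κ : Type} (c : Finset ℕ → κ) (B : BP (Fin r × Fin m) κ) : Prop :=
  ∀ v : Fin r → ℕ, StrictMono v → (∀ i, v i < 2 ^ m) →
    B.Run (fun x => (v x.1).testBit x.2) B.start (c (Finset.univ.image v))

theorem upper_core [Fintype κ] {B : BP (Fin r × Fin m) κ} {c : Finset ℕ → κ} {L n : ℕ}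
    (hc : ComputedBP r m c B) (hL : 1 ≤ L) (hn : 1 ≤ n) (hs : B.size ≤ L * m)
    (h : 2 * (((2 ^ r) ^ (2 * L) * (2 ^ (2 * L) * (Fintype.card κ ^ (2 * L) *
      ((2 ^ (2 * L)) ^ (2 * L) * (2 ^ (2 * L)) ^ (2 * L))))) *
        (2 * (n * (2 * n) ^ (6 * ((2 * L) * (2 * L))))) ^ 2 ^ (4 * (2 * L))) ≤ m) :
    ∃ S ⊆ Finset.range (2 ^ m), S.card = n ∧ Pool.Agent.Y613.HT.Homogeneous r c S := by
  classical
  obtain ⟨N, J, hJm, hJn, hJ⟩ := exists_alike hL hn hs h
  have hinj : Function.Injective (fun t : ℕ => 2 ^ t) := Nat.pow_right_injective le_rfl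
  refine ⟨J.image fun t => 2 ^ t, ?_, ?_, ?_⟩
  · intro y hy
    obtain ⟨t, ht, rfl⟩ := Finset.mem_image.1 hy
    exact Finset.mem_range.2 (Nat.pow_lt_pow_right (by norm_num)
      (Finset.mem_range.1 (hJm ht)))
  · rw [Finset.card_image_of_injective _ hinj, hJn]
  · have key : ∀ A ⊆ J.image (fun t => 2 ^ t), A.card = r → ∃ t : Fin r → ℕ, StrictMono t ∧
        (∀ i, t i ∈ J) ∧ B.Run (unit t) B.start (c A) := by
      intro A hA hAr
      obtain ⟨A', hA', rfl⟩ := Finset.subset_image_iff.1 hA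
      rw [Finset.card_image_of_injective _ hinj] at hAr
      have hmem : ∀ i, A'.orderEmbOfFin hAr i ∈ J := fun i =>
        Finset.coe_subset.1 hA' (Finset.orderEmbOfFin_mem A' hAr i)
      refine ⟨fun i => A'.orderEmbOfFin hAr i, (A'.orderEmbOfFin hAr).strictMono, hmem, ?_⟩
      have h1 := hc (fun i => 2 ^ (A'.orderEmbOfFin hAr i : ℕ))
        (fun i j hij => Nat.pow_lt_pow_right (by norm_num)
          ((A'.orderEmbOfFin hAr).strictMono hij))
        (fun i => Nat.pow_lt_pow_right (by norm_num) (Finset.mem_range.1 (hJm (hmem i))))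
      have h2 : (Finset.univ.image fun i : Fin r => 2 ^ (A'.orderEmbOfFin hAr i : ℕ)) =
          A'.image fun t => 2 ^ t := by
        ext y
        simp only [Finset.mem_image, Finset.mem_univ, true_and]
        constructor
        · rintro ⟨i, rfl⟩
          exact ⟨_, Finset.orderEmbOfFin_mem A' hAr i, rfl⟩
        · rintro ⟨t, ht, rfl⟩
          have h3 := Finset.range_orderEmbOfFin A' hAr
          have h4 : t ∈ Set.range (A'.orderEmbOfFin hAr) := by
            rw [h3]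
            exact ht
          obtain ⟨i, hi⟩ := h4
          exact ⟨i, by rw [hi]⟩
      rw [h2] at h1
      have h3 : (fun x : Fin r × Fin m => (2 ^ (A'.orderEmbOfFin hAr x.1 : ℕ)).testBit x.2) =
          unit fun i => A'.orderEmbOfFin hAr i := by
        funext x
        rw [Nat.testBit_two_pow]
        rfl
      rw [h3] at h1
      exact h1
    intro A hA A' hA' hAr hA'r
    obtain ⟨t, h1, h2, h3⟩ := key A hA hAr
    obtain ⟨t', h1', h2', h3'⟩ := key A' hA' hA'r
    exact (run_of_alike hJ h1 h1' h2 h2' _ h3).unique h3'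

/-- **Colourings computed by programs of linear size have single exponential Ramsey numbers.** -/
theorem upper_linear [Fintype κ] {B : BP (Fin r × Fin m) κ} {c : Finset ℕ → κ} {L n : ℕ}
    (hc : ComputedBP r m c B) (hL : 1 ≤ L) (hs : B.size ≤ L * m) (hn : 2 ≤ n)
    (h : n ^ 2 ^ ((2 * r + 2 * Fintype.card κ + 29) * L) ≤ m) :
    ∃ S ⊆ Finset.range (2 ^ m), S.card = n ∧ Pool.Agent.Y613.HT.Homogeneous r c S := by
  refine upper_core hc hL (by omega) hs (le_trans ?_ h)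
  obtain ⟨q, hq⟩ : ∃ q, q = Fintype.card κ := ⟨_, rfl⟩
  rw [← hq]
  have hn0 : 0 < n := by omega
  have hLL : L ≤ L ^ 2 := by nlinarith
  have h2n : ∀ k : ℕ, 2 ^ k ≤ n ^ k := fun k => Nat.pow_le_pow_left hn k
  have hqq : q ≤ 2 ^ q := Nat.lt_two_pow_self.le
  have h1 : 2 * ((2 ^ r) ^ (2 * L) * (2 ^ (2 * L) * (q ^ (2 * L) *
      ((2 ^ (2 * L)) ^ (2 * L) * (2 ^ (2 * L)) ^ (2 * L))))) ≤
      2 ^ ((2 * r + 2 * q + 11) * L ^ 2) := by
    calc 2 * ((2 ^ r) ^ (2 * L) * (2 ^ (2 * L) * (q ^ (2 * L) *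
          ((2 ^ (2 * L)) ^ (2 * L) * (2 ^ (2 * L)) ^ (2 * L)))))
        ≤ 2 * ((2 ^ r) ^ (2 * L) * (2 ^ (2 * L) * ((2 ^ q) ^ (2 * L) *
          ((2 ^ (2 * L)) ^ (2 * L) * (2 ^ (2 * L)) ^ (2 * L))))) := by
          refine Nat.mul_le_mul_left _ (Nat.mul_le_mul_left _ (Nat.mul_le_mul_left _
            (Nat.mul_le_mul_right _ (Nat.pow_le_pow_left hqq _))))
      _ = 2 ^ (1 + (r * (2 * L) + (2 * L + (q * (2 * L) + (2 * L * (2 * L) +
            2 * L * (2 * L)))))) := by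
          simp only [← pow_mul, pow_add, pow_one]
      _ ≤ _ := by
          refine Nat.pow_le_pow_right (by norm_num) ?_
          have e1 : r * (2 * L) ≤ 2 * r * L ^ 2 := by
            calc r * (2 * L) = 2 * r * L := by ring
              _ ≤ _ := Nat.mul_le_mul_left _ hLL
          have e2 : q * (2 * L) ≤ 2 * q * L ^ 2 := by
            calc q * (2 * L) = 2 * q * L := by ring
              _ ≤ _ := Nat.mul_le_mul_left _ hLL
          have e3 : 2 * L * (2 * L) = 4 * L ^ 2 := by ring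
          have e4 : (2 * r + 2 * q + 11) * L ^ 2 = 2 * r * L ^ 2 + 2 * q * L ^ 2 + 11 * L ^ 2 := by
            ring
          rw [e3, e4]
          omega
  have hL2 : L ^ 2 ≤ 2 ^ (2 * L) := by
    have : L ≤ 2 ^ L := Nat.lt_two_pow_self.le
    calc L ^ 2 ≤ (2 ^ L) ^ 2 := Nat.pow_le_pow_left this 2
      _ = 2 ^ (2 * L) := by rw [← pow_mul, mul_comm]
  have h2 : (2 * (n * (2 * n) ^ (6 * ((2 * L) * (2 * L))))) ^ 2 ^ (4 * (2 * L)) ≤
      n ^ 2 ^ (16 * L) := by
    have e5 : 6 * ((2 * L) * (2 * L)) = 24 * L ^ 2 := by ring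
    have e6 : 2 * (n * (2 * n) ^ (24 * L ^ 2)) = (2 * n) ^ (24 * L ^ 2 + 1) := by ring
    have e7 : 2 * n ≤ n ^ 2 := by
      rw [pow_two]
      exact Nat.mul_le_mul_right _ hn
    have e8 : 4 * (2 * L) = 8 * L := by ring
    rw [e5, e6, e8]
    calc ((2 * n) ^ (24 * L ^ 2 + 1)) ^ 2 ^ (8 * L)
        ≤ ((n ^ 2) ^ (24 * L ^ 2 + 1)) ^ 2 ^ (8 * L) :=
          Nat.pow_le_pow_left (Nat.pow_le_pow_left e7 _) _
      _ = n ^ ((2 * (24 * L ^ 2 + 1)) * 2 ^ (8 * L)) := by rw [← pow_mul, ← pow_mul, mul_assoc]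
      _ ≤ n ^ 2 ^ (16 * L) := by
          refine Nat.pow_le_pow_right hn0 ?_
          have e9 : 2 * (24 * L ^ 2 + 1) ≤ 2 ^ (8 * L) := by
            have f1 : 1 ≤ L ^ 2 := Nat.one_le_pow _ _ hL
            calc 2 * (24 * L ^ 2 + 1) ≤ 2 ^ 6 * L ^ 2 := by omega
              _ ≤ 2 ^ (6 * L) * 2 ^ (2 * L) :=
                Nat.mul_le_mul (Nat.pow_le_pow_right (by norm_num) (by omega)) hL2
              _ = 2 ^ (8 * L) := by rw [← pow_add]; congr 1; ring
          calc 2 * (24 * L ^ 2 + 1) * 2 ^ (8 * L) ≤ 2 ^ (8 * L) * 2 ^ (8 * L) :=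
                Nat.mul_le_mul_right _ e9
            _ = 2 ^ (16 * L) := by rw [← pow_add]; congr 1; ring
  calc 2 * (((2 ^ r) ^ (2 * L) * (2 ^ (2 * L) * (q ^ (2 * L) *
          ((2 ^ (2 * L)) ^ (2 * L) * (2 ^ (2 * L)) ^ (2 * L))))) *
        (2 * (n * (2 * n) ^ (6 * ((2 * L) * (2 * L))))) ^ 2 ^ (4 * (2 * L)))
      = (2 * ((2 ^ r) ^ (2 * L) * (2 ^ (2 * L) * (q ^ (2 * L) *
          ((2 ^ (2 * L)) ^ (2 * L) * (2 ^ (2 * L)) ^ (2 * L)))))) *
        (2 * (n * (2 * n) ^ (6 * ((2 * L) * (2 * L))))) ^ 2 ^ (4 * (2 * L)) := by ring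
    _ ≤ n ^ ((2 * r + 2 * q + 11) * L ^ 2) * n ^ 2 ^ (16 * L) :=
        Nat.mul_le_mul (h1.trans (h2n _)) h2
    _ = n ^ ((2 * r + 2 * q + 11) * L ^ 2 + 2 ^ (16 * L)) := by rw [← pow_add]
    _ ≤ n ^ 2 ^ ((2 * r + 2 * q + 29) * L) := by
        refine Nat.pow_le_pow_right hn0 ?_
        obtain ⟨x, hx⟩ : ∃ x, x = (2 * r + 2 * q + 13) * L := ⟨_, rfl⟩
        obtain ⟨y, hy⟩ : ∃ y, y = 16 * L := ⟨_, rfl⟩
        have hxy : (2 * r + 2 * q + 29) * L = x + y := by rw [hx, hy]; ring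
        have hx3 : (2 * r + 2 * q + 11) * L ^ 2 ≤ 2 ^ x := by
          have g1 : 2 * r + 2 * q + 11 ≤ 2 ^ ((2 * r + 2 * q + 11) * L) :=
            (Nat.le_mul_of_pos_right _ hL).trans Nat.lt_two_pow_self.le
          calc (2 * r + 2 * q + 11) * L ^ 2
              ≤ 2 ^ ((2 * r + 2 * q + 11) * L) * 2 ^ (2 * L) := Nat.mul_le_mul g1 hL2
            _ = 2 ^ x := by rw [← pow_add, hx]; congr 1; ring
        rw [← hy, hxy, pow_add]
        have hx2 : 2 ≤ 2 ^ x := by
          calc 2 = 2 ^ 1 := rfl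
            _ ≤ 2 ^ x := Nat.pow_le_pow_right (by norm_num) (by rw [hx]; nlinarith)
        have hy2 : 2 ≤ 2 ^ y := by
          calc 2 = 2 ^ 1 := rfl
            _ ≤ 2 ^ y := Nat.pow_le_pow_right (by norm_num) (by omega)
        nlinarith

end Pool.Agent.Y613.LB
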