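import Pool.Agent.Y613.LB.Forest
import Pool.Agent.Y613.CP.Select

/-!
# Branching programs on tuples of powers of two
-/

set_option autoImplicit false

namespace Pool.Agent.Y613.LB

open Finset

variable {κ : Type} {r m P : ℕ}

/-- the table whose row `i` has exactly one `1`, in the column `t i` -/
def unit (t : Fin r → ℕ) (x : Fin r × Fin m) : Bool := decide (t x.1 = (x.2 : ℕ))

/-- the node `v` queries the digit number `j` of the element number `a` -/
def At (B : BP (Fin r × Fin m) κ) (v : B.Node) (a : Fin r) (j : ℕ) : Prop :=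
  ∃ x : Fin r × Fin m, B.label v = .inr x ∧ x.1 = a ∧ (x.2 : ℕ) = j

/-- a relation between columns is homogeneous on `J` -/
def Hom (J : Finset ℕ) (R : ℕ → ℕ → Prop) : Prop :=
  (∀ j ∈ J, ∀ h ∈ J, j < h → ∀ j' ∈ J, ∀ h' ∈ J, j' < h' → (R j h ↔ R j' h')) ∧
  (∀ j ∈ J, ∀ h ∈ J, h < j → ∀ j' ∈ J, ∀ h' ∈ J, h' < j' → (R j h ↔ R j' h')) ∧
  (∀ j ∈ J, ∀ j' ∈ J, (R j j ↔ R j' j'))

theorem Hom.tuple {J : Finset ℕ} {R : ℕ → ℕ → Prop} (h : Hom J R) {t t' : Fin r → ℕ}
    (ht : StrictMono t) (ht' : StrictMono t') (htJ : ∀ i, t i ∈ J) (htJ' : ∀ i, t' i ∈ J)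
    (a b : Fin r) : R (t a) (t b) ↔ R (t' a) (t' b) := by
  rcases lt_trichotomy a b with hab | hab | hab
  · exact h.1 _ (htJ a) _ (htJ b) (ht hab) _ (htJ' a) _ (htJ' b) (ht' hab)
  · subst hab
    exact h.2.2 _ (htJ a) _ (htJ' a)
  · exact h.2.1 _ (htJ a) _ (htJ b) (ht hab) _ (htJ' a) _ (htJ' b) (ht' hab)

/-- The columns of `J` look alike to the program; `N j c` are the nodes of the column `j`. -/
structure Alike (B : BP (Fin r × Fin m) κ) (N : ℕ → Fin P → B.Node) (J : Finset ℕ) : Prop where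
  all : ∀ j ∈ J, ∀ v a, At B v a j → ∃ c, N j c = v
  row : ∀ c a, ∀ j ∈ J, ∀ j' ∈ J, (At B (N j c) a j ↔ At B (N j' c) a j')
  root : ∀ c, ∀ j ∈ J, ∀ j' ∈ J, (B.ZP B.start (N j c) ↔ B.ZP B.start (N j' c))
  col : ∀ c, ∀ j ∈ J, ∀ j' ∈ J, BP.zc (B.next (N j c) true) = BP.zc (B.next (N j' c) true)
  zp : ∀ c c', Hom J fun j h => B.ZP (B.next (N j c) true) (N h c')
  time : ∀ c c', Hom J fun j h => B.time (N j c) < B.time (N h c')

/-- the points where paths of zero edges begin -/
def pt {B : BP (Fin r × Fin m) κ} (N : ℕ → Fin P → B.Node) (t : Fin r → ℕ) :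
    Option (Fin r × Fin P) → B.Node
  | none => B.start
  | some s => B.next (N (t s.1) s.2) true

/-- one step of the simulation -/
theorem step_iff {B : BP (Fin r × Fin m) κ} {N : ℕ → Fin P → B.Node} {t : Fin r → ℕ}
    (hall : ∀ i, ∀ v a, At B v a (t i) → ∃ c, N (t i) c = v) (x : Option (Fin r × Fin P))
    (s : Fin r × Fin P) (hs : At B (N (t s.1) s.2) s.1 (t s.1))
    (hzp : B.ZP (pt N t x) (N (t s.1) s.2))
    (hmin : ∀ s' : Fin r × Fin P, At B (N (t s'.1) s'.2) s'.1 (t s'.1) →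
      B.ZP (pt N t x) (N (t s'.1) s'.2) →
      ¬ B.time (N (t s'.1) s'.2) < B.time (N (t s.1) s.2)) (k : κ) :
    B.Run (unit t) (pt N t x) k ↔ B.Run (unit t) (pt N t (some s)) k := by
  rw [BP.run_walk hzp ?_ k]
  · obtain ⟨y, h1, h2, h3⟩ := hs
    have hy : (unit t y : Bool) = true := by
      simp only [unit, decide_eq_true_eq]
      rw [h2, h3]
    constructor
    · intro h
      cases h with
      | sink _ _ h4 =>
        rw [h1] at h4
        cases h4
      | step _ x' _ h4 h5 =>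
        rw [h1] at h4
        rw [← Sum.inr_injective h4, hy] at h5
        exact h5
    · intro h
      refine .step _ y k h1 ?_
      rw [hy]
      exact h
  · intro w hw hlt y hy
    simp only [unit, decide_eq_false_iff_not]
    intro h
    obtain ⟨c, hc⟩ := hall y.1 w y.1 ⟨y, hy, rfl, h.symm⟩
    refine hmin (y.1, c) ?_ ?_ ?_
    · show At B (N (t y.1) c) y.1 (t y.1)
      rw [hc]
      exact ⟨y, hy, rfl, h.symm⟩
    · show B.ZP (pt N t x) (N (t y.1) c)
      rw [hc]
      exact hw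
    · show B.time (N (t y.1) c) < _
      rw [hc]
      exact hlt

/-- no special node -/
theorem stop_iff {B : BP (Fin r × Fin m) κ} {N : ℕ → Fin P → B.Node} {t : Fin r → ℕ}
    (hall : ∀ i, ∀ v a, At B v a (t i) → ∃ c, N (t i) c = v) (x : Option (Fin r × Fin P))
    (hno : ∀ s' : Fin r × Fin P, At B (N (t s'.1) s'.2) s'.1 (t s'.1) →
      ¬ B.ZP (pt N t x) (N (t s'.1) s'.2)) (k : κ) :
    B.Run (unit t) (pt N t x) k ↔ k = BP.zc (pt N t x) := by
  refine BP.run_zero ?_ k
  intro w hw y hy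
  simp only [unit, decide_eq_false_iff_not]
  intro h
  obtain ⟨c, hc⟩ := hall y.1 w y.1 ⟨y, hy, rfl, h.symm⟩
  refine hno (y.1, c) ?_ ?_
  · show At B (N (t y.1) c) y.1 (t y.1)
    rw [hc]
    exact ⟨y, hy, rfl, h.symm⟩
  · show B.ZP (pt N t x) (N (t y.1) c)
    rw [hc]
    exact hw

/-- **Simulation.** The output is the same for all increasing tuples of alike columns. -/
theorem run_of_alike {B : BP (Fin r × Fin m) κ} {N : ℕ → Fin P → B.Node} {J : Finset ℕ}
    (hJ : Alike B N J) {t t' : Fin r → ℕ} (ht : StrictMono t) (ht' : StrictMono t')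
    (htJ : ∀ i, t i ∈ J) (htJ' : ∀ i, t' i ∈ J) (k : κ) :
    B.Run (unit t) B.start k → B.Run (unit t') B.start k := by
  classical
  let _ := B.fin
  obtain ⟨T, hT⟩ : ∃ T, ∀ v : B.Node, B.time v ≤ T :=
    ⟨Finset.univ.sup B.time, fun v => Finset.le_sup (Finset.mem_univ v)⟩
  have hrow : ∀ s : Fin r × Fin P, At B (N (t s.1) s.2) s.1 (t s.1) ↔
      At B (N (t' s.1) s.2) s.1 (t' s.1) := fun s => hJ.row s.2 s.1 _ (htJ _) _ (htJ' _)
  have hzp : ∀ (x : Option (Fin r × Fin P)) (s : Fin r × Fin P),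
      B.ZP (pt N t x) (N (t s.1) s.2) ↔ B.ZP (pt N t' x) (N (t' s.1) s.2) := by
    intro x s
    cases x with
    | none => exact hJ.root s.2 _ (htJ _) _ (htJ' _)
    | some y => exact (hJ.zp y.2 s.2).tuple ht ht' htJ htJ' y.1 s.1
  have key : ∀ n, ∀ x : Option (Fin r × Fin P), T - B.time (pt N t x) ≤ n →
      B.Run (unit t) (pt N t x) k → B.Run (unit t') (pt N t' x) k := by
    intro n
    induction n with
    | zero =>
      intro x hx hrun
      by_cases hD : ∃ s : Fin r × Fin P, At B (N (t s.1) s.2) s.1 (t s.1) ∧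
          B.ZP (pt N t x) (N (t s.1) s.2)
      · exfalso
        obtain ⟨s, ⟨y, h1, -, -⟩, h4⟩ := hD
        have h5 := B.acyclic _ y true h1
        have h6 := h4.le
        have h7 := hT (B.next (N (t s.1) s.2) true)
        omega
      · push Not at hD
        rw [stop_iff (fun i => hJ.all _ (htJ i)) x hD] at hrun
        rw [stop_iff (fun i => hJ.all _ (htJ' i)) x (fun s hs hz => hD s ((hrow s).2 hs)
          ((hzp x s).2 hz)), hrun]
        cases x with
        | none => rfl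
        | some y => exact hJ.col y.2 _ (htJ _) _ (htJ' _)
    | succ n ih =>
      intro x hx hrun
      by_cases hD : ∃ s : Fin r × Fin P, At B (N (t s.1) s.2) s.1 (t s.1) ∧
          B.ZP (pt N t x) (N (t s.1) s.2)
      · have hne : ((Finset.univ : Finset (Fin r × Fin P)).filter fun s =>
            At B (N (t s.1) s.2) s.1 (t s.1) ∧ B.ZP (pt N t x) (N (t s.1) s.2)).Nonempty := by
          obtain ⟨s, hs⟩ := hD
          exact ⟨s, Finset.mem_filter.2 ⟨Finset.mem_univ _, hs⟩⟩
        obtain ⟨s, hs, hmin⟩ := Finset.exists_min_image _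
          (fun s : Fin r × Fin P => B.time (N (t s.1) s.2)) hne
        have hs' := (Finset.mem_filter.1 hs).2
        have hmin' : ∀ s' : Fin r × Fin P, At B (N (t s'.1) s'.2) s'.1 (t s'.1) →
            B.ZP (pt N t x) (N (t s'.1) s'.2) →
            ¬ B.time (N (t s'.1) s'.2) < B.time (N (t s.1) s.2) := fun s' h1 h2 =>
          not_lt.2 (hmin s' (Finset.mem_filter.2 ⟨Finset.mem_univ _, h1, h2⟩))
        rw [step_iff (fun i => hJ.all _ (htJ i)) x s hs'.1 hs'.2 hmin'] at hrun
        rw [step_iff (fun i => hJ.all _ (htJ' i)) x s ((hrow s).1 hs'.1) ((hzp x s).1 hs'.2)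
          (fun s' h1 h2 h3 => hmin' s' ((hrow s').2 h1) ((hzp x s').2 h2)
            (((hJ.time s'.2 s.2).tuple ht ht' htJ htJ' s'.1 s.1).2 h3))]
        refine ih (some s) ?_ hrun
        obtain ⟨y, h1, -, -⟩ := hs'.1
        have h5 := B.acyclic _ y true h1
        have h6 := hs'.2.le
        show T - B.time (B.next (N (t s.1) s.2) true) ≤ n
        omega
      · push Not at hD
        rw [stop_iff (fun i => hJ.all _ (htJ i)) x hD] at hrun
        rw [stop_iff (fun i => hJ.all _ (htJ' i)) x (fun s hs hz => hD s ((hrow s).2 hs)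
          ((hzp x s).2 hz)), hrun]
        cases x with
        | none => rfl
        | some y => exact hJ.col y.2 _ (htJ _) _ (htJ' _)
  exact key _ none le_rfl

end Pool.Agent.Y613.LB
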